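import Mathlib

set_option autoImplicit false

namespace Pool.Agent.Results.MP_5ce401_an.Counter

open Filter Topology Real

/-- x solves x'(t) + a(t) x(h(t)) = 0 for t ≥ t0 with continuous bounded history ψ -/
def IsSol (t0 : ℝ) (a h ψ x : ℝ → ℝ) : Prop :=
  (∀ t ≤ t0, x t = ψ t) ∧ ∀ t, t0 ≤ t → HasDerivWithinAt x (-(a t * x (h t))) (Set.Ici t0) t

def History (t0 : ℝ) (ψ : ℝ → ℝ) : Prop :=
  ContinuousOn ψ (Set.Iic t0) ∧ ∃ B, ∀ t ≤ t0, |ψ t| ≤ B

/-- asymptotic stability -/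
def AS (t0 : ℝ) (a h : ℝ → ℝ) : Prop :=
  (∀ ε > 0, ∃ δ > 0, ∀ ψ x, History t0 ψ → (∀ t ≤ t0, |ψ t| ≤ δ) → IsSol t0 a h ψ x →
    ∀ t, t0 ≤ t → |x t| < ε) ∧
  ∀ ψ x, History t0 ψ → IsSol t0 a h ψ x → Tendsto x atTop (𝓝 0)

/-- the standing assumptions on the coefficient and the delay -/
def Admissible (t0 : ℝ) (a h : ℝ → ℝ) : Prop :=
  ContinuousOn a (Set.Ici t0) ∧ ContinuousOn h (Set.Ici t0) ∧ Tendsto h atTop atTop ∧
    ∃ A τ : ℝ, ∀ t, t0 ≤ t → |a t| ≤ A ∧ 0 ≤ t - h t ∧ t - h t ≤ τ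

noncomputable def aa (e s : ℝ) : ℝ := cos s * exp (sin (s + e) - sin s)

noncomputable def Φ (e s : ℝ) : ℝ :=
  sin s + (cos e - 1) * (sin s ^ 2 / 2) + sin e * (s / 2 + sin s * cos s / 2)

lemma Φ_der (e s : ℝ) : HasDerivAt (Φ e) (cos s * (1 + (sin (s + e) - sin s))) s := by
  have := ((hasDerivAt_sin s).add ((((hasDerivAt_sin s).fun_pow 2).div_const 2).const_mul
    (cos e - 1))).add ((((hasDerivAt_id s).div_const 2).add
      (((hasDerivAt_sin s).mul (hasDerivAt_cos s)).div_const 2)).const_mul (sin e))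
  refine this.congr_deriv ?_
  rw [sin_add]
  simp
  linear_combination (sin e / 2) * (sin_sq_add_cos_sq s).symm

lemma int_bd {e : ℝ} (h0 : 0 < e) (h1 : e ≤ 1 / 10) (t : ℝ) :
    e / 2 ≤ ∫ s in (t - (2 * π - e))..t, aa e s ∧ ∫ s in (t - (2 * π - e))..t, aa e s ≤ 6 * e := by
  have c1 : Continuous (aa e) := by unfold aa; fun_prop
  have c2 : Continuous fun s => cos s * (1 + (sin (s + e) - sin s)) := by fun_prop
  have i1 := intervalIntegral.integral_eq_sub_of_hasDerivAt (a := t - (2 * π - e)) (b := t)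
    (fun s _ => Φ_der e s) (c2.intervalIntegrable _ _)
  have us : ∀ s, |sin (s + e) - sin s| ≤ e := fun s => by
    simpa [abs_of_pos h0] using abs_sin_sub_sin_le (s + e) s
  have i2 := intervalIntegral.norm_integral_le_of_norm_le_const (a := t - (2 * π - e)) (b := t)
    (C := e ^ 2) (f := fun s => aa e s - cos s * (1 + (sin (s + e) - sin s))) (fun s _ => by
      have b1 := abs_exp_sub_one_sub_id_le (x := sin (s + e) - sin s) ((us s).trans (by linarith))
      have b2 : (sin (s + e) - sin s) ^ 2 ≤ e ^ 2 := by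
        rw [← sq_abs]; exact pow_le_pow_left₀ (abs_nonneg _) (us s) 2
      have e1 : aa e s - cos s * (1 + (sin (s + e) - sin s)) =
          cos s * (exp (sin (s + e) - sin s) - 1 - (sin (s + e) - sin s)) := by unfold aa; ring
      rw [Real.norm_eq_abs, e1, abs_mul]
      nlinarith [abs_cos_le_one s, abs_nonneg (cos s),
        abs_nonneg (exp (sin (s + e) - sin s) - 1 - (sin (s + e) - sin s))])
  rw [intervalIntegral.integral_sub (c1.intervalIntegrable _ _) (c2.intervalIntegrable _ _), i1,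
    Real.norm_eq_abs, sub_sub_cancel, abs_of_pos (show 0 < 2 * π - e by linarith [pi_gt_three]),
    abs_le] at i2
  have p1 := pi_gt_three
  have p2 := pi_lt_d2
  have s1 : sin (t - (2 * π - e)) = sin (t + e) := by
    rw [← sin_add_two_pi]; congr 1; ring
  have s2 : cos (t - (2 * π - e)) = cos (t + e) := by
    rw [← cos_add_two_pi]; congr 1; ring
  have e2 : Φ e t - Φ e (t - (2 * π - e)) = -(sin (t + e) - sin t)
      + (1 - cos e) * ((sin (t + e) ^ 2 - sin t ^ 2) / 2)
      + sin e * (π - e / 2 + (sin (2 * t) - sin (2 * (t + e))) / 4) := by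
    unfold Φ; rw [s1, s2, sin_two_mul, sin_two_mul]; ring
  have d1 := abs_le.mp (us t)
  have d2 := one_sub_sq_div_two_le_cos (x := e)
  have d3 := cos_le_one e
  have d4 := sin_le h0.le
  have d5 := sin_gt_sub_cube h0
  have d6 : |(1 - cos e) * ((sin (t + e) ^ 2 - sin t ^ 2) / 2)| ≤ e ^ 2 / 4 := by
    have := sin_sq_le_one (t + e)
    have := sin_sq_le_one t
    rw [abs_le]
    constructor <;> nlinarith [sq_nonneg (sin (t + e)), sq_nonneg (sin t)]
  have d7 : 0.9 * e ≤ sin e := by nlinarith [mul_pos h0 h0]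
  have d8 := sin_le_one (2 * t)
  have d9 := neg_one_le_sin (2 * t)
  have d10 := sin_le_one (2 * (t + e))
  have d11 := neg_one_le_sin (2 * (t + e))
  have f1 : 0.9 * e * 2.45 ≤ sin e * (π - e / 2 + (sin (2 * t) - sin (2 * (t + e))) / 4) :=
    mul_le_mul d7 (by linarith) (by norm_num) (by linarith)
  have f2 : sin e * (π - e / 2 + (sin (2 * t) - sin (2 * (t + e))) / 4) ≤ e * 3.7 :=
    mul_le_mul d4 (by linarith) (by linarith) h0.le
  have f3 : e ^ 2 * (2 * π - e) ≤ e * 0.63 := by nlinarith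
  rw [abs_le] at d6
  constructor <;> nlinarith [i2.1, i2.2, d6.1, d6.2]

theorem result : ¬ ∃ M : ℝ, 0 < M ∧ ∀ (t0 : ℝ) (a h : ℝ → ℝ), Admissible t0 a h →
    0 < liminf (fun t => ∫ s in (h t)..t, a s) atTop →
    limsup (fun t => ∫ s in (h t)..t, a s) atTop < M → AS t0 a h := by
  rintro ⟨M, hM, H⟩
  set e := min (1 / 10) (M / 7) with he
  have h0 : 0 < e := lt_min (by norm_num) (by linarith)
  have h1 : e ≤ 1 / 10 := min_le_left _ _
  have h2 : e ≤ M / 7 := min_le_right _ _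
  have b1 : IsBoundedUnder (· ≤ ·) atTop fun t => ∫ s in (t - (2 * π - e))..t, aa e s :=
    isBoundedUnder_of ⟨_, fun t => (int_bd h0 h1 t).2⟩
  have b2 : IsBoundedUnder (· ≥ ·) atTop fun t => ∫ s in (t - (2 * π - e))..t, aa e s :=
    isBoundedUnder_of ⟨_, fun t => (int_bd h0 h1 t).1⟩
  have key := (H 0 (aa e) (fun t => t - (2 * π - e))
    ⟨by unfold aa; fun_prop, by fun_prop, tendsto_atTop_add_const_right _ _ tendsto_id,
      exp 2, 2 * π, fun t _ => ⟨?_, by linarith [pi_gt_three], by linarith⟩⟩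
    (lt_of_lt_of_le (half_pos h0) (le_liminf_of_le b1.isCoboundedUnder_ge
      (Eventually.of_forall fun t => (int_bd h0 h1 t).1)))
    (lt_of_le_of_lt (limsup_le_of_le b2.isCoboundedUnder_le
      (Eventually.of_forall fun t => (int_bd h0 h1 t).2)) (by linarith))).2
    (fun t => exp (-sin t)) (fun t => exp (-sin t))
    ⟨by fun_prop, exp 1, fun t _ => by
      rw [abs_of_pos (exp_pos _)]; exact exp_le_exp.mpr (by linarith [neg_one_le_sin t])⟩
    ⟨fun _ _ => rfl, fun t _ => ?_⟩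
  · have := (key.eventually (gt_mem_nhds (exp_pos (-1)))).exists
    obtain ⟨t, ht⟩ := this
    exact absurd ht (not_lt.mpr (exp_le_exp.mpr (by linarith [sin_le_one t])))
  · unfold aa
    rw [abs_mul, abs_of_pos (exp_pos _)]
    have := exp_le_exp.mpr (show sin (t + e) - sin t ≤ 2 by
      linarith [sin_le_one (t + e), neg_one_le_sin t])
    nlinarith [abs_cos_le_one t, exp_pos (sin (t + e) - sin t), abs_nonneg (cos t)]
  · refine ((hasDerivAt_sin t).neg.exp.congr_deriv ?_).hasDerivWithinAt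
    have s1 : sin (t - (2 * π - e)) = sin (t + e) := by
      rw [← sin_add_two_pi]; congr 1; ring
    simp only [aa, s1, Pi.neg_apply]
    rw [mul_assoc, ← exp_add]
    ring_nf

end Pool.Agent.Results.MP_5ce401_an.Counter
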